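import Pool.Agent.H91.CP.PDefs
import Pool.Agent.H34CP.Gr.Back

/-!
The adapter between the pairs on a set of ends `E` (graph side, `H34CP.Gr.Pair`) and the pairs on
`U × Bool` (sequences side, `H48CP.Pr`), project CP, MP_472c72.
-/

namespace H91CP

open Pool.Agent.H34CP.Gr
open scoped Classical

universe u

variable {E : Type u}

/-- a set with a fixed point free involution is `U × Bool` -/
theorem exists_equiv (mu : E → E) (h2 : ∀ v, mu (mu v) = v) (h1 : ∀ v, mu v ≠ v) :
    ∃ (U : Type u) (φ : E ≃ U × Bool), ∀ v, φ (mu v) = H48CP.mu (φ v) := by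
  let s : Setoid E :=
    { r := fun v w => w = v ∨ w = mu v
      iseqv :=
        { refl := fun v => Or.inl rfl
          symm := by
            rintro v w (h | h)
            · exact Or.inl h.symm
            · exact Or.inr (by rw [h, h2])
          trans := by
            rintro a b c (h | h) (h' | h')
            · exact Or.inl (by rw [h', h])
            · exact Or.inr (by rw [h', h])
            · exact Or.inr (by rw [h', h])
            · exact Or.inl (by rw [h', h, h2]) } }
  have hr : ∀ v : E, (Quotient.mk s v).out = v ∨ (Quotient.mk s v).out = mu v := by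
    intro v
    have h3 : Quotient.mk s (Quotient.mk s v).out = Quotient.mk s v := Quotient.out_eq _
    have h4 : v = (Quotient.mk s v).out ∨ v = mu (Quotient.mk s v).out := Quotient.exact h3
    rcases h4 with h4 | h4
    · exact Or.inl h4.symm
    · right
      conv_rhs => rw [h4]
      rw [h2]
  have hmk : ∀ v : E, Quotient.mk s (mu v) = Quotient.mk s v := by
    intro v
    refine Quotient.sound ?_
    show v = mu v ∨ v = mu (mu v)
    right
    rw [h2]
  refine ⟨Quotient s,
    { toFun := fun v => (Quotient.mk s v, decide ((Quotient.mk s v).out = v))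
      invFun := fun c => if c.2 = true then c.1.out else mu c.1.out
      left_inv := ?_
      right_inv := ?_ }, ?_⟩
  · intro v
    simp only [decide_eq_true_eq]
    by_cases h : (Quotient.mk s v).out = v
    · rw [if_pos h, h]
    · rw [if_neg h]
      rcases hr v with h' | h'
      · exact absurd h' h
      · rw [h', h2]
  · rintro ⟨c, i⟩
    cases i
    · simp only [Bool.false_eq_true, if_false]
      rw [hmk, Quotient.out_eq]
      refine Prod.ext rfl ?_
      simp only [decide_eq_false_iff_not]
      exact fun h => h1 _ h.symm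
    · simp only [if_true]
      rw [Quotient.out_eq]
      simp
  · intro v
    show (Quotient.mk s (mu v), decide ((Quotient.mk s (mu v)).out = mu v)) =
      (Quotient.mk s v, !decide ((Quotient.mk s v).out = v))
    rw [hmk]
    refine Prod.ext rfl ?_
    simp only
    rcases hr v with h | h
    · rw [h]
      have h3 : ¬ v = mu v := fun h4 => h1 v h4.symm
      simp [h3]
    · rw [h]
      simp [h1 v]

variable {U : Type u}

/-- the pair read on `U × Bool` -/
def toPr (P : Pair E) (φ : E ≃ U × Bool) : H48CP.Pr U where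
  al e := φ (P.al (φ.symm e))
  be e := φ (P.be (φ.symm e))
  al2 e := by simp [P.al_al]
  be2 e := by simp [P.be_be]
  al1 e h := P.al_ne (φ.symm e) (by
    have := congrArg φ.symm h
    simpa using this)
  be1 e h := P.be_ne (φ.symm e) (by
    have := congrArg φ.symm h
    simpa using this)
  p0 := φ P.p0
  q0 := φ P.q0

section

variable {P : Pair E} {φ : E ≃ U × Bool} (hφ : ∀ v, φ (P.mu v) = H48CP.mu (φ v))

include hφ

lemma symm_mu (e : U × Bool) : φ.symm (H48CP.mu e) = P.mu (φ.symm e) := by
  apply φ.injective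
  rw [hφ]
  simp

/-- criticality -/
theorem crit (hC : P.Crit) : (toPr P φ).Crit := by
  intro za zb hA
  have h1 : P.Alt (fun v => za (φ v)) (fun v => zb (φ v)) := by
    refine ⟨?_, ?_, hA.x, hA.y, fun v h h' => hA.disj _ ⟨h, h'⟩, ?_, ?_⟩
    · intro v hv
      have := (hA.ia (φ v)).2 hv
      simpa [toPr] using this
    · intro v hv
      have := (hA.ib (φ v)).2 hv
      simpa [toPr] using this
    · intro v hv
      rw [hφ]
      exact (hA.mu (φ v)).2 hv
    · obtain ⟨e, he⟩ := hA.ne
      refine ⟨φ.symm e, ?_⟩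
      simpa using he
  obtain ⟨Y, hYa, hYb, hY⟩ := hC _ _ h1
  have hya : ∀ e, ¬ za e → (Y (φ.symm (φ (P.al (φ.symm e)))) ↔ Y (φ.symm e)) := by
    intro e he
    rw [φ.symm_apply_apply]
    exact (hYa (φ.symm e) (by simpa using he)).symm
  have hyb : ∀ e, ¬ zb e → (Y (φ.symm (φ (P.be (φ.symm e)))) ↔ Y (φ.symm e)) := by
    intro e he
    rw [φ.symm_apply_apply]
    exact (hYb (φ.symm e) (by simpa using he)).symm
  rcases hY with ⟨h, hza, hzb, hyh, hnh, hm, hpq⟩ | ⟨hm, hp, hq⟩
  · left
    refine ⟨fun e => if Y (φ.symm e) then 1 else 0, (φ h).1, ?_, ?_, ?_, ?_, ?_, ?_⟩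
    · intro e he
      show (if Y (φ.symm (φ (P.al (φ.symm e)))) then (1 : ZMod 2) else 0) = _
      simp only [hya e he]
    · intro e he
      show (if Y (φ.symm (φ (P.be (φ.symm e)))) then (1 : ZMod 2) else 0) = _
      simp only [hyb e he]
    · intro e he
      have h3 : φ.symm e ≠ h := fun h4 => he (by rw [← h4]; simp)
      have h4 : φ.symm e ≠ P.mu h := fun h4 => he (by
        have h5 : φ h = H48CP.mu e := by
          rw [← φ.symm_apply_eq.1 (h4 : φ.symm e = P.mu h) |>.symm]
          rw [← hφ, P.mu_mu]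
        rw [h5]
        rfl)
      have h5 := hm _ h3 h4
      simp only [symm_mu hφ]
      simp only [← h5]
    · have h3 : Y (φ.symm (φ h)) := by simpa using hyh
      have h4 : ¬ Y (φ.symm (H48CP.mu (φ h))) := by
        rw [symm_mu hφ]
        simpa using hnh
      generalize hg : φ h = g at h3 h4 ⊢
      rcases g with ⟨u, i⟩
      cases i
      · simp only [H48CP.mu, Bool.not_false] at h4
        show (if Y (φ.symm (u, true)) then (1 : ZMod 2) else 0) =
          (if Y (φ.symm (u, false)) then 1 else 0) + 1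
        rw [if_pos h3, if_neg h4]
        decide
      · simp only [H48CP.mu, Bool.not_true] at h4
        show (if Y (φ.symm (u, true)) then (1 : ZMod 2) else 0) =
          (if Y (φ.symm (u, false)) then 1 else 0) + 1
        rw [if_pos h3, if_neg h4]
        decide
    · intro i
      have h3 : ∀ e, e = φ h ∨ e = H48CP.mu (φ h) → ¬ za e ∧ ¬ zb e := by
        rintro e (rfl | rfl)
        · exact ⟨hza, hzb⟩
        · have := hA.mu (φ h)
          tauto
      exact h3 _ (H48CP.eq_or_mu rfl)
    · show (if Y (φ.symm (φ P.p0)) then (1 : ZMod 2) else 0) =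
        if Y (φ.symm (φ P.q0)) then 1 else 0
      rw [φ.symm_apply_apply, φ.symm_apply_apply]
      simp only [hpq]
  · right
    refine ⟨fun e => if Y (φ.symm e) then 1 else 0, ?_, ?_, ?_, ?_⟩
    · intro e he
      show (if Y (φ.symm (φ (P.al (φ.symm e)))) then (1 : ZMod 2) else 0) = _
      simp only [hya e he]
    · intro e he
      show (if Y (φ.symm (φ (P.be (φ.symm e)))) then (1 : ZMod 2) else 0) = _
      simp only [hyb e he]
    · intro e
      have h5 := hm (φ.symm e)
      simp only [symm_mu hφ]
      simp only [← h5]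
    · show (if Y (φ.symm (φ P.p0)) then (1 : ZMod 2) else 0) =
        (if Y (φ.symm (φ P.q0)) then 1 else 0) + 1
      rw [φ.symm_apply_apply, φ.symm_apply_apply, if_pos hp, if_neg hq]
      decide

/-- `e` is not a bridge -/
theorem nb (hN : P.Conn) : PNB (toPr P φ) := by
  intro Y h1 h2 h3
  refine (hN (fun v => Y (φ v) = Y (φ P.p0)) ?_ ?_ ?_ rfl).symm
  · intro v hv
    show Y (φ (P.mu v)) = _
    rw [hφ, h3]
    exact hv
  · intro v hv
    show Y (φ (P.al v)) = _
    have := h1 (φ v)
    simp only [toPr, φ.symm_apply_apply] at this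
    rw [this]
    exact hv
  · intro v hv
    show Y (φ (P.be v)) = _
    have := h2 (φ v)
    simp only [toPr, φ.symm_apply_apply] at this
    rw [this]
    exact hv

/-- the cuts -/
theorem cuts (hK : P.Cuts) : PCuts (toPr P φ) := by
  have hne : ∀ (e : U × Bool) (v : E), e ≠ φ v → φ.symm e ≠ v := by
    intro e v h h'
    exact h (by rw [← h']; simp)
  have hmu := symm_mu (P := P) (φ := φ) hφ
  refine ⟨?_, ?_, ?_, ?_⟩
  · intro e h
    exact hK.digon (φ.symm e) (φ.injective h)
  · intro e h1 h2 h3 h4 h5
    refine hK.tri (φ.symm e) (hne _ _ h1) (hne _ _ ?_) (hne _ _ h3) (hne _ _ ?_) ?_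
    · simpa [toPr] using h2
    · simpa [toPr] using h4
    · apply φ.injective
      rw [hφ]
      exact h5
  · intro Y T T' d d' h1 h2 h3 h4 h5 h6 h7 h8 h9 k1 k2 k3 k4
    refine hK.cut_b (fun v => Y (φ v)) (fun v => T (φ v)) (fun v => T' (φ v)) (φ.symm d)
      (φ.symm d') ?_ ?_ ?_ h4 h5 ?_ ?_ ?_ ?_ ?_ ?_ ?_ ?_
    · intro v
      show Y (φ v) ↔ Y (φ (P.mu v))
      rw [hφ]; exact h1 _
    · intro v
      have := h2 (φ v)
      simpa [toPr] using this
    · intro v a1 a2 a3 a4
      have := h3 (φ v) (fun h => a1 (by rw [← h]; simp)) (fun h => a2 (by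
        have h' := congrArg φ.symm h
        simpa [toPr] using h')) (fun h => a3 (by rw [← h]; simp)) (fun h => a4 (by
        have h' := congrArg φ.symm h
        simpa [toPr] using h'))
      simpa [toPr] using this
    · obtain ⟨e, he⟩ := h6
      exact ⟨φ.symm e, by simpa using he⟩
    · intro v hv
      exact h7 _ hv
    · intro v hv
      show T (φ (P.mu v))
      rw [hφ]; exact h8 _ hv
    · intro v hv
      have := h9 _ hv
      simpa [toPr] using this
    · obtain ⟨e, he⟩ := k1
      exact ⟨φ.symm e, by simpa using he⟩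
    · intro v hv
      exact k2 _ hv
    · intro v hv
      show T' (φ (P.mu v))
      rw [hφ]; exact k3 _ hv
    · intro v hv
      have := k4 _ hv
      simpa [toPr] using this
  · intro Y T T' d d' h1 h2 h3 h4 h5 h6 h7 h8 h9 k1 k2 k3 k4
    refine hK.cut_a (fun v => Y (φ v)) (fun v => T (φ v)) (fun v => T' (φ v)) (φ.symm d)
      (φ.symm d') ?_ ?_ ?_ h4 h5 ?_ ?_ ?_ ?_ ?_ ?_ ?_ ?_
    · intro v
      show Y (φ v) ↔ Y (φ (P.mu v))
      rw [hφ]; exact h1 _
    · intro v
      have := h2 (φ v)
      simpa [toPr] using this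
    · intro v a1 a2 a3 a4
      have := h3 (φ v) (fun h => a1 (by rw [← h]; simp)) (fun h => a2 (by
        have h' := congrArg φ.symm h
        simpa [toPr] using h')) (fun h => a3 (by rw [← h]; simp)) (fun h => a4 (by
        have h' := congrArg φ.symm h
        simpa [toPr] using h'))
      simpa [toPr] using this
    · obtain ⟨e, he⟩ := h6
      exact ⟨φ.symm e, by simpa using he⟩
    · intro v hv
      exact h7 _ hv
    · intro v hv
      show T (φ (P.mu v))
      rw [hφ]; exact h8 _ hv
    · intro v hv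
      have := h9 _ hv
      simpa [toPr] using this
    · obtain ⟨e, he⟩ := k1
      exact ⟨φ.symm e, by simpa using he⟩
    · intro v hv
      exact k2 _ hv
    · intro v hv
      show T' (φ (P.mu v))
      rw [hφ]; exact k3 _ hv
    · intro v hv
      have := k4 _ hv
      simpa [toPr] using this

/-- the conclusion -/
theorem isP10 (h : PIs10 (toPr P φ)) : P.IsP10 := by
  obtain ⟨a, b, c, d, hall, h1, h2, h3, h4, h5, h6, h7, h8, h9, h10⟩ := h
  have hmu := symm_mu (P := P) (φ := φ) hφ
  have hmk : ∀ v w, φ.symm v = w → v = φ w := fun v w h => by rw [← h, φ.apply_symm_apply]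
  have hal : ∀ v w, (toPr P φ).al v = w → P.al (φ.symm v) = φ.symm w := by
    rintro v w rfl
    simp [toPr]
  have hbe : ∀ v w, (toPr P φ).be v = w → P.be (φ.symm v) = φ.symm w := by
    rintro v w rfl
    simp [toPr]
  refine ⟨φ.symm a, φ.symm b, φ.symm c, φ.symm d, ?_, ?_, hal _ _ h2, hal _ _ h3, hbe _ _ h4,
    hbe _ _ h5, ?_, ?_, ?_, ?_, ?_⟩
  · intro v
    simp only [← hmu]
    have h' : ∀ w : U × Bool, v = φ.symm w ↔ φ v = w := fun w => φ.eq_symm_apply
    simpa only [h'] using hall (φ v)
  · rw [← h1]; simp [toPr]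
  · rcases h6 with h6 | h6
    · left; rw [← hmu, ← h6]; simp [toPr]
    · right; rw [← hmu, ← h6]; simp [toPr]
  · rw [← hmu, ← hmu]; exact hbe _ _ h7
  · rw [← hmu, ← hmu]; exact hbe _ _ h8
  · rw [← hmu, ← hmu]; exact hal _ _ h9
  · rw [← hmu, ← hmu]; exact hal _ _ h10

end

/-- **the adapter** -/
theorem conv (H : ∀ (U : Type u) [Finite U] (Q : H48CP.Pr U), Q.Crit → PNB Q → PCuts Q →
    PIs10 Q) :
    ∀ (E : Type u) [Fintype E] (P : Pair E), P.Crit → P.Conn → P.Cuts → P.IsP10 := by
  intro E _ P hC hN hK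
  obtain ⟨U, φ, hφ⟩ := exists_equiv P.mu P.mu_mu P.mu_ne
  have : Finite (U × Bool) := Finite.of_equiv E φ
  have : Finite U := Finite.of_surjective (fun e : U × Bool => e.1)
    (fun u => ⟨(u, true), rfl⟩)
  exact isP10 hφ (H U (toPr P φ) (crit hφ hC) (nb hφ hN) (cuts hφ hK))

end H91CP
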