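import Pool.Agent.H91.CP.Conv
import Pool.Agent.H21.CK.R1

/-!
The abstract theorem on coloured pairs (project CP, MP_472c72).
-/

namespace H91CP

open H48CP

universe u

lemma PCuts.to {U : Type u} {P : Pr U} (h : PCuts P) : H21CK.Cuts P :=
  ⟨h.digon, h.tri, h.cut_b, h.cut_a⟩

/-- **the abstract theorem** -/
theorem abstr : ∀ (E : Type u) [Fintype E] (P : Pool.Agent.H34CP.Gr.Pair E), P.Crit → P.Conn →
    P.Cuts → P.IsP10 :=
  conv fun _ _ Q hC hN hK => H21CK.seq_main Q hC hN hK.to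

end H91CP
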