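import Pool.Agent.H48.CP.Pair

/-!
The hypotheses and the conclusion of the theorem on coloured pairs, on `U × Bool` (project CP,
MP_472c72).
-/

namespace H91CP

universe u

variable {U : Type u}

/-- what cyclic 4-edge-connectivity gives: `Pair.Cuts` read on `U × Bool` -/
structure PCuts (P : H48CP.Pr U) : Prop where
  /-- no digon (and no triangle through `x` or `y`) -/
  digon : ∀ e, P.al e ≠ P.be e
  /-- no triangle -/
  tri : ∀ e, e ≠ P.p0 → e ≠ P.al P.p0 → e ≠ P.q0 → e ≠ P.be P.q0 →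
    H48CP.mu (P.al e) ≠ P.be e
  /-- no cut formed by `e` and two further edges, with an `al`-circuit on the side of `x` and
  a `be`-circuit on the side of `y` -/
  cut_b : ∀ (Y T T' : U × Bool → Prop) (d d' : U × Bool), (∀ e, Y e ↔ Y (H48CP.mu e)) →
    (∀ e, Y e ↔ Y (P.al e)) →
    (∀ e, e ≠ d → e ≠ P.be d → e ≠ d' → e ≠ P.be d' → (Y e ↔ Y (P.be e))) →
    Y P.p0 → ¬ Y P.q0 → (∃ e, T e) → (∀ e, T e → Y e) → (∀ e, T e → T (H48CP.mu e)) →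
    (∀ e, T e → T (P.al e)) → (∃ e, T' e) → (∀ e, T' e → ¬ Y e) →
    (∀ e, T' e → T' (H48CP.mu e)) → (∀ e, T' e → T' (P.be e)) → False
  cut_a : ∀ (Y T T' : U × Bool → Prop) (d d' : U × Bool), (∀ e, Y e ↔ Y (H48CP.mu e)) →
    (∀ e, Y e ↔ Y (P.be e)) →
    (∀ e, e ≠ d → e ≠ P.al d → e ≠ d' → e ≠ P.al d' → (Y e ↔ Y (P.al e))) →
    Y P.q0 → ¬ Y P.p0 → (∃ e, T e) → (∀ e, T e → Y e) → (∀ e, T e → T (H48CP.mu e)) →
    (∀ e, T e → T (P.be e)) → (∃ e, T' e) → (∀ e, T' e → ¬ Y e) →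
    (∀ e, T' e → T' (H48CP.mu e)) → (∀ e, T' e → T' (P.al e)) → False

/-- `e` is not a bridge -/
def PNB (P : H48CP.Pr U) : Prop := ∀ Y : U × Bool → ZMod 2, (∀ e, Y (P.al e) = Y e) →
  (∀ e, Y (P.be e) = Y e) → (∀ e, Y (H48CP.mu e) = Y e) → Y P.p0 = Y P.q0

/-- the pair of the Petersen graph: `x a b c d` is one circuit of `F`, `y b' d' a' c'` the other
one -/
def PIs10 (P : H48CP.Pr U) : Prop :=
  ∃ a b c d : U × Bool, (∀ v, v = a ∨ v = b ∨ v = c ∨ v = d ∨ v = H48CP.mu a ∨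
      v = H48CP.mu b ∨ v = H48CP.mu c ∨ v = H48CP.mu d) ∧
    P.p0 = a ∧ P.al a = d ∧ P.al b = c ∧ P.be a = b ∧ P.be c = d ∧
    (P.q0 = H48CP.mu b ∨ P.q0 = H48CP.mu c) ∧ P.be (H48CP.mu b) = H48CP.mu c ∧ P.be (H48CP.mu a) = H48CP.mu d ∧
    P.al (H48CP.mu b) = H48CP.mu d ∧ P.al (H48CP.mu a) = H48CP.mu c

end H91CP
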